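import Mathlib

set_option autoImplicit false

/-!
# MP_b8546e_an, Q1: a strongly non-contractive iterated function system on the line

`f₁ = h ∘ clamp` and `f₂ x = 1 - f₁ (1 - x)`, where `clamp` is the projection of `ℝ` to `[0, 1]`
and `h` is the piecewise linear map with `h 0 = 0`, `h (3/4) = 9/16`, `h (7/8) = 1`, `h 1 = 1/2`.
The map `f₁` has the repelling fixed point `33/40`, so it is not nonexpansive for any metric with
the Euclidean topology. The attractor is `[0, 1]`.
-/

open Set Filter Topology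

namespace Pool.Agent.Results.MP_b8546e_an.NonContractive

/-- `F(B)`, the union of the images of `B` under the maps of `F` -/
def hutch {X : Type*} (F : Set (X → X)) (B : Set X) : Set X := ⋃ f ∈ F, f '' B

/-- `U` is an open set containing `A` all of whose nonempty compact subsets are attracted to `A` -/
def Attracts {X : Type*} [MetricSpace X] (F : Set (X → X)) (A U : Set X) : Prop :=
  IsOpen U ∧ A ⊆ U ∧ ∀ B : Set X, IsCompact B → B.Nonempty → B ⊆ U →
    Tendsto (fun k : ℕ => Metric.hausdorffEDist ((hutch F)^[k] B) A) atTop (𝓝 0)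

/-- `A` is an attractor of `F` -/
def IsAttractor {X : Type*} [MetricSpace X] (F : Set (X → X)) (A : Set X) : Prop :=
  IsCompact A ∧ A.Nonempty ∧ hutch F A = A ∧ ∃ U, Attracts F A U

/-- the basin of `A` -/
def basin {X : Type*} [MetricSpace X] (F : Set (X → X)) (A : Set X) : Set X :=
  ⋃₀ {U | Attracts F A U}

/-- `d` is a metric on `ℝ` which induces the Euclidean topology -/
structure IsEquivMetric (d : ℝ → ℝ → ℝ) : Prop where
  nonneg : ∀ x y, 0 ≤ d x y
  eq_zero : ∀ x y, d x y = 0 ↔ x = y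
  symm : ∀ x y, d x y = d y x
  triangle : ∀ x y z, d x z ≤ d x y + d y z
  top : ∀ s : Set ℝ, IsOpen s ↔ ∀ x ∈ s, ∃ ε > 0, ∀ y, d x y < ε → y ∈ s

/-- `Lip(f, d)`, the supremum of `d (f x) (f y) / d x y` over `x ≠ y`, in `[0, ∞]` -/
noncomputable def lip (f : ℝ → ℝ) (d : ℝ → ℝ → ℝ) : ENNReal :=
  ⨆ (x : ℝ) (y : ℝ) (_ : x ≠ y), ENNReal.ofReal (d (f x) (f y) / d x y)

lemma le_of_lip {f : ℝ → ℝ} {d : ℝ → ℝ → ℝ} (hd : IsEquivMetric d) (h : lip f d ≤ 1) (x y : ℝ) :
    d (f x) (f y) ≤ d x y := by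
  by_cases hxy : x = y
  · rw [hxy, (hd.eq_zero _ _).2 rfl, (hd.eq_zero _ _).2 rfl]
  · have h1 : ENNReal.ofReal (d (f x) (f y) / d x y) ≤ 1 := by
      refine le_trans ?_ h
      unfold lip
      exact le_iSup_of_le x (le_iSup_of_le y (le_iSup_of_le hxy le_rfl))
    rw [ENNReal.ofReal_le_one] at h1
    have h2 : 0 < d x y := lt_of_le_of_ne (hd.nonneg x y) fun h => hxy ((hd.eq_zero x y).1 h.symm)
    rwa [div_le_one h2] at h1

lemma tendsto_metric {d : ℝ → ℝ → ℝ} (hd : IsEquivMetric d) {u : ℕ → ℝ} {p : ℝ}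
    (hu : Tendsto u atTop (𝓝 p)) (ε : ℝ) (hε : 0 < ε) : ∀ᶠ k in atTop, d p (u k) < ε := by
  have hopen : IsOpen {y | d p y < ε} := by
    rw [hd.top]
    intro x hx
    refine ⟨ε - d p x, sub_pos.2 hx, fun y hy => ?_⟩
    have := hd.triangle p x y
    show d p y < ε
    linarith
  have hp : p ∈ {y | d p y < ε} := by
    show d p p < ε
    rw [(hd.eq_zero p p).2 rfl]
    exact hε
  exact hu (hopen.mem_nhds hp)

/-- a map with a repelling fixed point is not nonexpansive for any equivalent metric -/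
lemma lip_gt {f : ℝ → ℝ} {p : ℝ} {u : ℕ → ℝ} (hp : f p = p) (hu : ∀ k, f (u (k + 1)) = u k)
    (hlim : Tendsto u atTop (𝓝 p)) (hne : p ≠ u 0) {d : ℝ → ℝ → ℝ} (hd : IsEquivMetric d) :
    1 < lip f d := by
  by_contra hcon
  rw [not_lt] at hcon
  have h1 := le_of_lip hd hcon
  have h2 : ∀ k, d p (u 0) ≤ d p (u k) := by
    intro k
    induction k with
    | zero => exact le_refl _
    | succ k ih =>
      have := h1 p (u (k + 1))
      rw [hp, hu] at this
      exact ih.trans this
  have h3 : 0 < d p (u 0) := lt_of_le_of_ne (hd.nonneg _ _) fun h => hne ((hd.eq_zero _ _).1 h.symm)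
  obtain ⟨k, hk⟩ := (tendsto_metric hd hlim _ h3).exists
  exact absurd (h2 k) (not_le.2 hk)

/-- projection to `[0, 1]` -/
noncomputable def clamp (x : ℝ) : ℝ := max 0 (min x 1)

/-- first map -/
noncomputable def f1 (x : ℝ) : ℝ :=
  min (max (3 / 4 * clamp x) (7 / 2 * clamp x - 33 / 16)) (9 / 2 - 4 * clamp x)

/-- second map -/
noncomputable def f2 (x : ℝ) : ℝ := 1 - f1 (1 - x)

lemma clamp_of_mem {x : ℝ} (h0 : 0 ≤ x) (h1 : x ≤ 1) : clamp x = x := by
  unfold clamp
  rw [min_eq_left h1, max_eq_right h0]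

lemma clamp_mem (x : ℝ) : 0 ≤ clamp x ∧ clamp x ≤ 1 := by
  unfold clamp
  exact ⟨le_max_left _ _, max_le zero_le_one (min_le_right _ _)⟩

lemma f1_cont : Continuous f1 := by
  unfold f1 clamp
  fun_prop

lemma f2_cont : Continuous f2 := by
  unfold f2
  exact continuous_const.sub (f1_cont.comp (continuous_const.sub continuous_id))

lemma f1_mem (x : ℝ) : 0 ≤ f1 x ∧ f1 x ≤ 1 := by
  obtain ⟨h0, h1⟩ := clamp_mem x
  unfold f1
  constructor
  · refine le_min (le_max_of_le_left (by linarith)) (by linarith)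
  · rcases le_total (clamp x) (7 / 8) with h | h
    · exact (min_le_left _ _).trans (max_le (by linarith) (by linarith))
    · exact (min_le_right _ _).trans (by linarith)

lemma f2_mem (x : ℝ) : 0 ≤ f2 x ∧ f2 x ≤ 1 := by
  have := f1_mem (1 - x)
  unfold f2
  constructor <;> linarith [this.1, this.2]

lemma f1_low {x : ℝ} (h0 : 0 ≤ x) (h1 : x ≤ 3 / 4) : f1 x = 3 / 4 * x := by
  unfold f1
  rw [clamp_of_mem h0 (by linarith), max_eq_left (by linarith), min_eq_left (by linarith)]

lemma f1_mid {x : ℝ} (h0 : 3 / 4 ≤ x) (h1 : x ≤ 7 / 8) : f1 x = 7 / 2 * x - 33 / 16 := by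
  unfold f1
  rw [clamp_of_mem (by linarith) (by linarith), max_eq_right (by linarith),
    min_eq_left (by linarith)]

lemma f1_high {x : ℝ} (h0 : 7 / 8 ≤ x) (h1 : x ≤ 1) : f1 x = 9 / 2 - 4 * x := by
  unfold f1
  rw [clamp_of_mem (by linarith) h1, max_eq_right (by linarith), min_eq_right (by linarith)]

lemma f2_high {x : ℝ} (h0 : 1 / 4 ≤ x) (h1 : x ≤ 1) : f2 x = 1 - 3 / 4 * (1 - x) := by
  unfold f2
  rw [f1_low (by linarith) (by linarith)]

/-- apply a word of maps -/
noncomputable def app : List Bool → ℝ → ℝ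
  | [], x => x
  | true :: w, x => f1 (app w x)
  | false :: w, x => f2 (app w x)

lemma app_append (w v : List Bool) (x : ℝ) : app (w ++ v) x = app w (app v x) := by
  induction w with
  | nil => rfl
  | cons b w ih => cases b <;> simp [app, ih]

lemma app_cont (w : List Bool) : Continuous (app w) := by
  induction w with
  | nil => exact continuous_id
  | cons b w ih =>
    cases b
    · exact f2_cont.comp ih
    · exact f1_cont.comp ih

/-- the system -/
noncomputable def F : Set (ℝ → ℝ) := {f1, f2}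

lemma app_mem (w : List Bool) (B : Set ℝ) (x : ℝ) (hx : x ∈ B) :
    app w x ∈ (hutch F)^[w.length] B := by
  induction w with
  | nil => exact hx
  | cons b w ih =>
    rw [List.length_cons, Function.iterate_succ', Function.comp_apply]
    unfold hutch
    cases b
    · exact mem_iUnion₂.2 ⟨f2, Or.inr rfl, _, ih, rfl⟩
    · exact mem_iUnion₂.2 ⟨f1, Or.inl rfl, _, ih, rfl⟩

/-- the orbit of `1 / 2` is dense in `[0, 1]` -/
lemma dense_aux (n : ℕ) : ∀ a b : ℝ, 0 ≤ a → b ≤ 1 → a < b → (3 / 4 : ℝ) ^ n ≤ b - a →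
    ∃ w : List Bool, a < app w (1 / 2) ∧ app w (1 / 2) < b := by
  induction n with
  | zero =>
    intro a b ha hb hab h
    rw [pow_zero] at h
    refine ⟨[], ?_, ?_⟩
    · show a < 1 / 2
      linarith
    · show 1 / 2 < b
      linarith
  | succ n ih =>
    intro a b ha hb hab h
    rw [pow_succ] at h
    rcases le_total b (9 / 16) with hb1 | hb1
    · obtain ⟨w, h1, h2⟩ := ih (4 / 3 * a) (4 / 3 * b) (by linarith) (by linarith) (by linarith)
        (by linarith)
      refine ⟨true :: w, ?_, ?_⟩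
      · show a < f1 (app w (1 / 2))
        rw [f1_low (by linarith) (by linarith)]
        linarith
      · show f1 (app w (1 / 2)) < b
        rw [f1_low (by linarith) (by linarith)]
        linarith
    · rcases le_total (7 / 16) a with ha1 | ha1
      · obtain ⟨w, h1, h2⟩ := ih (1 - 4 / 3 * (1 - a)) (1 - 4 / 3 * (1 - b)) (by linarith)
          (by linarith) (by linarith) (by linarith)
        refine ⟨false :: w, ?_, ?_⟩
        · show a < f2 (app w (1 / 2))
          rw [f2_high (by linarith) (by linarith)]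
          linarith
        · show f2 (app w (1 / 2)) < b
          rw [f2_high (by linarith) (by linarith)]
          linarith
      · refine ⟨[], ?_, ?_⟩
        · show a < 1 / 2
          linarith
        · show 1 / 2 < b
          linarith

/-- every point can be moved to `[0, 3 / 4]` -/
lemma exists_low (x : ℝ) : ∃ v : List Bool, 0 ≤ app v x ∧ app v x ≤ 3 / 4 := by
  have h0 := f1_mem x
  rcases le_total (f1 x) (3 / 4) with h | h
  · exact ⟨[true], h0.1, h⟩
  · -- push up with `f2`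
    have hrep : ∀ n : ℕ, app (List.replicate n false) (f1 x) = 1 - (3 / 4) ^ n * (1 - f1 x) := by
      intro n
      induction n with
      | zero => simp [app]
      | succ n ih =>
        rw [List.replicate_succ]
        show f2 (app (List.replicate n false) (f1 x)) = _
        have hp : (0 : ℝ) ≤ (3 / 4) ^ n := by positivity
        have hp1 : (3 / 4 : ℝ) ^ n ≤ 1 := pow_le_one₀ (by norm_num) (by norm_num)
        rw [ih, f2_high (by nlinarith [h0.2]) (by nlinarith [h0.2])]
        ring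
    obtain ⟨n, hn⟩ := exists_pow_lt_of_lt_one (show (0 : ℝ) < 1 / 16 by norm_num)
      (show (3 / 4 : ℝ) < 1 by norm_num)
    have hp : (0 : ℝ) ≤ (3 / 4) ^ n := by positivity
    refine ⟨true :: (List.replicate n false ++ [true]), ?_, ?_⟩
    · exact (f1_mem _).1
    · show f1 (app (List.replicate n false ++ [true]) x) ≤ 3 / 4
      rw [app_append]
      show f1 (app (List.replicate n false) (f1 x)) ≤ 3 / 4
      have h1 := hrep n
      have h2 : (3 / 4 : ℝ) ^ n * (1 - f1 x) ≤ 1 / 16 := by nlinarith [h0.1]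
      have h3 : 0 ≤ (3 / 4 : ℝ) ^ n * (1 - f1 x) := mul_nonneg hp (by linarith [h0.2])
      rw [h1, f1_high (by linarith) (by linarith)]
      linarith

lemma app_true (y : ℝ) (h0 : 0 ≤ y) (h1 : y ≤ 3 / 4) (n : ℕ) :
    app (List.replicate n true) y = (3 / 4) ^ n * y := by
  induction n with
  | zero => simp [app]
  | succ n ih =>
    rw [List.replicate_succ]
    show f1 (app (List.replicate n true) y) = _
    have hp : (0 : ℝ) ≤ (3 / 4) ^ n := by positivity
    have hp1 : (3 / 4 : ℝ) ^ n ≤ 1 := pow_le_one₀ (by norm_num) (by norm_num)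
    rw [ih, f1_low (by positivity) (by nlinarith)]
    ring

/-- eventually every iterate meets a given interval -/
lemma eventually_meets (B : Set ℝ) (x : ℝ) (hx : x ∈ B) (a b : ℝ) (ha : 0 ≤ a) (hb : b ≤ 1)
    (hab : a < b) : ∀ᶠ k in atTop, ∃ y ∈ (hutch F)^[k] B, a < y ∧ y < b := by
  obtain ⟨n, hn⟩ := exists_pow_lt_of_lt_one (sub_pos.2 hab) (show (3 / 4 : ℝ) < 1 by norm_num)
  obtain ⟨w, hw1, hw2⟩ := dense_aux n a b ha hb hab hn.le
  obtain ⟨v, hv0, hv1⟩ := exists_low x
  have hf20 : f2 0 = 1 / 2 := by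
    unfold f2
    rw [sub_zero, f1_high (by norm_num) (by norm_num)]
    norm_num
  have hlim : Tendsto (fun m : ℕ => app w (f2 ((3 / 4 : ℝ) ^ m * app v x))) atTop
      (𝓝 (app w (1 / 2))) := by
    have h1 : Tendsto (fun m : ℕ => (3 / 4 : ℝ) ^ m * app v x) atTop (𝓝 (0 * app v x)) :=
      (tendsto_pow_atTop_nhds_zero_of_lt_one (by norm_num) (by norm_num)).mul_const _
    rw [zero_mul] at h1
    have h2 := ((app_cont w).comp f2_cont).continuousAt (x := 0) |>.tendsto.comp h1
    have h3 : (app w ∘ f2) 0 = app w (1 / 2) := by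
      rw [Function.comp_apply, hf20]
    rw [h3] at h2
    exact h2
  have hev := hlim.eventually (Ioo_mem_nhds hw1 hw2)
  rw [eventually_atTop] at hev
  obtain ⟨M, hM⟩ := hev
  rw [eventually_atTop]
  refine ⟨w.length + 1 + v.length + M, fun k hk => ?_⟩
  set m := k - (w.length + 1 + v.length) with hm
  have hmM : M ≤ m := by omega
  have h1 := hM m hmM
  set W : List Bool := w ++ (false :: (List.replicate m true ++ v)) with hW
  have hlen : W.length = k := by
    rw [hW]
    simp only [List.length_append, List.length_cons, List.length_replicate]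
    omega
  have h2 := app_mem W B x hx
  rw [hlen] at h2
  have h3 : app W x = app w (f2 ((3 / 4 : ℝ) ^ m * app v x)) := by
    rw [hW, app_append]
    show app w (f2 (app (List.replicate m true ++ v) x)) = _
    rw [app_append, app_true _ hv0 hv1]
  rw [h3] at h2
  exact ⟨_, h2, h1.1, h1.2⟩

lemma hutch_sub (B : Set ℝ) : hutch F B ⊆ Icc 0 1 := by
  intro y hy
  obtain ⟨f, hf, x, -, rfl⟩ := mem_iUnion₂.1 hy
  rcases hf with rfl | hf
  · exact f1_mem x
  · rw [mem_singleton_iff.1 hf]
    exact f2_mem x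

lemma attracts : Attracts F (Icc (0 : ℝ) 1) univ := by
  refine ⟨isOpen_univ, subset_univ _, fun B _ hne _ => ?_⟩
  obtain ⟨x, hx⟩ := hne
  rw [ENNReal.tendsto_nhds_zero]
  intro ε hε
  -- a real number below `ε`
  obtain ⟨N, hN0, hN⟩ : ∃ N : ℕ, 0 < N ∧ ENNReal.ofReal (1 / N) ≤ ε := by
    rcases eq_or_ne ε ⊤ with h | h
    · exact ⟨1, one_pos, by rw [h]; exact le_top⟩
    · have hεr : 0 < ε.toReal := ENNReal.toReal_pos hε.ne' h
      obtain ⟨N, hN⟩ := exists_nat_gt (1 / ε.toReal)
      have hNpos : (0 : ℝ) < N := (by positivity : (0 : ℝ) < 1 / ε.toReal).trans hN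
      refine ⟨N, by exact_mod_cast hNpos, ?_⟩
      rw [ENNReal.ofReal_le_iff_le_toReal h, div_le_iff₀ hNpos]
      rw [div_lt_iff₀ hεr] at hN
      linarith
  have hNpos : (0 : ℝ) < N := by exact_mod_cast hN0
  have hall : ∀ᶠ k in atTop, ∀ i ∈ Finset.range N, ∃ y ∈ (hutch F)^[k] B,
      (i : ℝ) / N < y ∧ y < ((i : ℝ) + 1) / N := by
    rw [Finset.eventually_all]
    intro i hi
    have hi' : (i : ℝ) + 1 ≤ N := by exact_mod_cast Finset.mem_range.1 hi
    apply eventually_meets B x hx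
    · positivity
    · rw [div_le_one hNpos]; exact hi'
    · gcongr; linarith
  filter_upwards [hall, eventually_ge_atTop 1] with k hk hk1
  refine Metric.hausdorffEDist_le_of_mem_edist (fun y hy => ?_) (fun y hy => ?_)
  · refine ⟨y, ?_, by rw [edist_self]; exact bot_le⟩
    obtain ⟨j, rfl⟩ : ∃ j, k = j + 1 := ⟨k - 1, by omega⟩
    rw [Function.iterate_succ', Function.comp_apply] at hy
    exact hutch_sub _ hy
  · have hi : ∃ i ∈ Finset.range N, (i : ℝ) / N ≤ y ∧ y ≤ ((i : ℝ) + 1) / N := by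
      rcases hy.2.lt_or_eq with h | h
      · refine ⟨⌊y * N⌋₊, ?_, ?_, ?_⟩
        · rw [Finset.mem_range, Nat.floor_lt (mul_nonneg hy.1 hNpos.le)]
          nlinarith
        · rw [div_le_iff₀ hNpos]
          exact Nat.floor_le (mul_nonneg hy.1 hNpos.le)
        · rw [le_div_iff₀ hNpos]
          exact (Nat.lt_floor_add_one _).le
      · refine ⟨N - 1, Finset.mem_range.2 (by omega), ?_, ?_⟩
        · rw [h, div_le_one hNpos]
          push_cast [Nat.cast_sub hN0]
          linarith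
        · rw [h, le_div_iff₀ hNpos]
          push_cast [Nat.cast_sub hN0]
          linarith
    obtain ⟨i, hi, h1, h2⟩ := hi
    obtain ⟨z, hz, h3, h4⟩ := hk i hi
    refine ⟨z, hz, ?_⟩
    rw [edist_dist, Real.dist_eq]
    refine le_trans (ENNReal.ofReal_le_ofReal ?_) hN
    rw [add_div] at h2 h4
    rw [abs_le]
    constructor <;> linarith

lemma hutch_eq : hutch F (Icc (0 : ℝ) 1) = Icc 0 1 := by
  apply Subset.antisymm (hutch_sub _)
  intro y hy
  rcases le_total y (9 / 16) with h | h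
  · refine mem_iUnion₂.2 ⟨f1, Or.inl rfl, 4 / 3 * y, ⟨by linarith [hy.1], by linarith⟩, ?_⟩
    rw [f1_low (by linarith [hy.1]) (by linarith)]
    ring
  · refine mem_iUnion₂.2 ⟨f2, Or.inr rfl, 1 - 4 / 3 * (1 - y), ⟨by linarith, by linarith [hy.2]⟩, ?_⟩
    rw [f2_high (by linarith) (by linarith [hy.2])]
    ring

lemma not_attractor_of_fixed {F' : Set (ℝ → ℝ)} {p q : ℝ} (hpq : edist q p = 1)
    (hp : p ∈ Icc (0 : ℝ) 1) (hq : q ∈ Icc (0 : ℝ) 1) (hfix : ∀ f ∈ F', f p = p) :
    ¬ IsAttractor F' (Icc (0 : ℝ) 1) := by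
  rintro ⟨-, -, -, U, -, hAU, hU⟩
  have h1 := hU {p} isCompact_singleton (singleton_nonempty p) (by
    rw [singleton_subset_iff]; exact hAU hp)
  have hsub : ∀ k, (hutch F')^[k] {p} ⊆ {p} := by
    intro k
    induction k with
    | zero => exact subset_rfl
    | succ k ih =>
      rw [Function.iterate_succ', Function.comp_apply]
      intro y hy
      obtain ⟨f, hf, x, hx, rfl⟩ := mem_iUnion₂.1 hy
      have hx' := ih hx
      rw [mem_singleton_iff] at hx' ⊢
      rw [hx']
      exact hfix f hf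
  have h2 : ∀ k, 1 ≤ Metric.hausdorffEDist ((hutch F')^[k] {p}) (Icc (0 : ℝ) 1) := by
    intro k
    rw [Metric.hausdorffEDist_comm]
    calc (1 : ENNReal) = Metric.infEDist q {p} := by rw [Metric.infEDist_singleton, hpq]
      _ ≤ Metric.infEDist q ((hutch F')^[k] {p}) := Metric.infEDist_anti (hsub k)
      _ ≤ _ := Metric.infEDist_le_hausdorffEDist_of_mem hq
  have h3 := ge_of_tendsto' h1 h2
  exact absurd h3 (by simp)

lemma f1_zero : f1 0 = 0 := by
  rw [f1_low (le_refl _) (by norm_num)]; norm_num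

lemma f2_one : f2 1 = 1 := by
  rw [f2_high (by norm_num) (le_refl _)]; norm_num

lemma no_proper (F' : Set (ℝ → ℝ)) (h : F' ⊂ F) : ¬ IsAttractor F' (Icc (0 : ℝ) 1) := by
  by_cases hf : f1 ∈ F'
  · have hf2 : f2 ∉ F' := by
      intro h2
      apply h.2
      rintro f (rfl | hf')
      · exact hf
      · rw [mem_singleton_iff.1 hf']; exact h2
    refine not_attractor_of_fixed (p := 0) (q := 1) ?_ ⟨le_refl _, zero_le_one⟩
      ⟨zero_le_one, le_refl _⟩ ?_
    · rw [edist_dist, Real.dist_eq]; norm_num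
    · intro f hfF
      rcases h.1 hfF with rfl | h'
      · exact f1_zero
      · rw [mem_singleton_iff.1 h'] at hfF
        exact absurd hfF hf2
  · refine not_attractor_of_fixed (p := 1) (q := 0) ?_ ⟨zero_le_one, le_refl _⟩
      ⟨le_refl _, zero_le_one⟩ ?_
    · rw [edist_dist, Real.dist_eq]; norm_num
    · intro f hfF
      rcases h.1 hfF with rfl | h'
      · exact absurd hfF hf
      · rw [mem_singleton_iff.1 h']
        exact f2_one

lemma lip_f1 {d : ℝ → ℝ → ℝ} (hd : IsEquivMetric d) : 1 < lip f1 d := by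
  refine lip_gt (p := 33 / 40) (u := fun k => 33 / 40 + 1 / 20 * (2 / 7 : ℝ) ^ k) ?_ ?_ ?_ ?_ hd
  · rw [f1_mid (by norm_num) (by norm_num)]; norm_num
  · intro k
    have hp : (0 : ℝ) ≤ (2 / 7) ^ (k + 1) := by positivity
    have hp1 : (2 / 7 : ℝ) ^ (k + 1) ≤ 1 := pow_le_one₀ (by norm_num) (by norm_num)
    show f1 (33 / 40 + 1 / 20 * (2 / 7 : ℝ) ^ (k + 1)) = 33 / 40 + 1 / 20 * (2 / 7 : ℝ) ^ k
    rw [f1_mid (by linarith) (by linarith)]
    ring
  · have h1 : Tendsto (fun k : ℕ => 33 / 40 + 1 / 20 * (2 / 7 : ℝ) ^ k) atTop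
        (𝓝 (33 / 40 + 1 / 20 * 0)) :=
      ((tendsto_pow_atTop_nhds_zero_of_lt_one (by norm_num) (by norm_num)).const_mul _).const_add _
    simpa using h1
  · norm_num

lemma lip_f2 {d : ℝ → ℝ → ℝ} (hd : IsEquivMetric d) : 1 < lip f2 d := by
  refine lip_gt (p := 7 / 40) (u := fun k => 7 / 40 - 1 / 20 * (2 / 7 : ℝ) ^ k) ?_ ?_ ?_ ?_ hd
  · unfold f2
    rw [f1_mid (by norm_num) (by norm_num)]; norm_num
  · intro k
    have hp : (0 : ℝ) ≤ (2 / 7) ^ (k + 1) := by positivity
    have hp1 : (2 / 7 : ℝ) ^ (k + 1) ≤ 1 := pow_le_one₀ (by norm_num) (by norm_num)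
    show f2 (7 / 40 - 1 / 20 * (2 / 7 : ℝ) ^ (k + 1)) = 7 / 40 - 1 / 20 * (2 / 7 : ℝ) ^ k
    unfold f2
    rw [f1_mid (by linarith) (by linarith)]
    ring
  · have h1 : Tendsto (fun k : ℕ => 7 / 40 - 1 / 20 * (2 / 7 : ℝ) ^ k) atTop
        (𝓝 (7 / 40 - 1 / 20 * 0)) :=
      ((tendsto_pow_atTop_nhds_zero_of_lt_one (by norm_num) (by norm_num)).const_mul _).const_sub _
    simpa using h1
  · norm_num

/-- **Q1, answer yes, with `n = 1`.** There is a finite set `F` of continuous maps of the line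
with an attractor `A` whose basin is the whole line, such that no proper subset of `F` has `A` as
an attractor and `Lip(f, d) > 1` for every `f ∈ F` and every metric `d` with the Euclidean
topology. -/
theorem result : ∃ (F : Set (ℝ → ℝ)) (A : Set ℝ), F.Finite ∧ (∀ f ∈ F, Continuous f) ∧
    IsAttractor F A ∧ basin F A = univ ∧ (∀ F' : Set (ℝ → ℝ), F' ⊂ F → ¬ IsAttractor F' A) ∧
    ∀ d : ℝ → ℝ → ℝ, IsEquivMetric d → ∀ f ∈ F, 1 < lip f d := by
  refine ⟨F, Icc 0 1, ?_, ?_, ⟨isCompact_Icc, ⟨0, le_refl _, zero_le_one⟩, hutch_eq, univ, attracts⟩,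
    ?_, no_proper, ?_⟩
  · exact (finite_singleton f2).insert f1
  · rintro f (rfl | hf)
    · exact f1_cont
    · rw [mem_singleton_iff.1 hf]; exact f2_cont
  · exact univ_subset_iff.1 (subset_sUnion_of_mem attracts)
  · rintro d hd f (rfl | hf)
    · exact lip_f1 hd
    · rw [mem_singleton_iff.1 hf]; exact lip_f2 hd

end Pool.Agent.Results.MP_b8546e_an.NonContractive
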